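import Pool.Agent.Y685.SY.Stm3
import Pool.Agent.Y547.SY.Ctr

/-!
# Project SY: taming at the centre, for a compact family of continuous forms
-/

set_option autoImplicit false
set_option maxSynthPendingDepth 3

open scoped Manifold ContDiff Topology ENNReal
open MeasureTheory Set Metric Filter

namespace Pool.Agent.Y722.SY

open Pool.Agent.Y685.SY
open Pool.Agent.Y547.SY (norml vb vb_pos vol_contra le_defect)

section
variable {E : Type} [NormedAddCommGroup E] [InnerProductSpace ℝ E] [FiniteDimensional ℝ E]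

/-- uniform continuity of a compact family near a compact set -/
theorem unifF {ι : Type} [TopologicalSpace ι] [CompactSpace ι] {F : Type} [NormedAddCommGroup F]
    {K U : Set E} {τ : ι → E → F} (hU : IsOpen U) (hKU : K ⊆ U) (hK : IsCompact K)
    (hτ : ContinuousOn (fun q : ι × E => τ q.1 q.2) (univ ×ˢ U)) {ε : ℝ} (hε : 0 < ε) :
    ∃ δ : ℝ, 0 < δ ∧ ∀ t, ∀ x ∈ K, ∀ y ∈ ball x δ, ‖τ t y - τ t x‖ ≤ ε := by
  obtain ⟨δ₁, hδ₁, h1⟩ := hK.exists_cthickening_subset_open hU hKU
  have h2 : IsCompact (cthickening δ₁ K) := hK.cthickening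
  haveI : CompactSpace (cthickening δ₁ K) := isCompact_iff_compactSpace.1 h2
  have hc : Continuous (fun p : (cthickening δ₁ K) × ι => τ p.2 p.1.1) := by
    refine hτ.comp_continuous (f := fun p : (cthickening δ₁ K) × ι => (p.2, p.1.1))
      (by fun_prop) (fun p => ⟨mem_univ _, h1 p.1.2⟩)
  let g : C((cthickening δ₁ K) × ι, F) := ⟨fun p => τ p.2 p.1.1, hc⟩
  have h3 : UniformContinuous (ContinuousMap.curry g) :=
    CompactSpace.uniformContinuous_of_continuous (ContinuousMap.curry g).continuous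
  rw [Metric.uniformContinuous_iff] at h3
  obtain ⟨δ₂, hδ₂, h4⟩ := h3 ε hε
  refine ⟨min δ₁ δ₂, lt_min hδ₁ hδ₂, fun t x hx y hy => ?_⟩
  rw [mem_ball] at hy
  have hy1 : y ∈ cthickening δ₁ K :=
    mem_cthickening_of_dist_le y x δ₁ K hx (hy.le.trans (min_le_left _ _))
  have hx1 : x ∈ cthickening δ₁ K := self_subset_cthickening K hx
  have h5 : dist (ContinuousMap.curry g ⟨y, hy1⟩) (ContinuousMap.curry g ⟨x, hx1⟩) < ε :=
    h4 (a := ⟨y, hy1⟩) (b := ⟨x, hx1⟩) (lt_of_lt_of_le hy (min_le_right _ _))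
  have h6 := ContinuousMap.dist_apply_le_dist (f := ContinuousMap.curry g ⟨y, hy1⟩)
    (g := ContinuousMap.curry g ⟨x, hx1⟩) t
  rw [dist_eq_norm] at h6
  exact h6.trans h5.le

end

section
variable (E : Type) [NormedAddCommGroup E] [InnerProductSpace ℝ E] [FiniteDimensional ℝ E]
  [MeasurableSpace E] [BorelSpace E]

theorem t_CTRF : S_CTRF E := by
  intro ι _ _ τ U K hU hτ hKU hK C c hc
  have hv := vb_pos (E := E)
  obtain ⟨δ, hδ, h1⟩ := unifF hU hKU hK hτ (ε := c / (4 * (|C| + 1))) (by positivity)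
  refine ⟨c / 8 * vb E, by positivity, δ, hδ, ?_⟩
  intro t x hx r hr hrδ Q hQ hint u hu
  by_contra hcon
  push Not at hcon
  obtain ⟨hw1, hw2⟩ := norml (τ t x) Q hu
  set w := (‖u‖⁻¹ : ℝ) • u with hw
  have hu2 : 0 < ‖u‖ ^ 2 := by
    have := norm_pos_iff.2 hu
    positivity
  have hw3 : τ t x w (Q w) ≤ 0 := by
    rw [hw2] at hcon
    by_contra h
    push Not at h
    exact absurd hcon (not_le.2 (mul_pos hu2 h))
  have h2 : ∀ y ∈ ball x r, ENNReal.ofReal (c / 2) ≤ defect c (τ t y) Q := by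
    intro y hy
    refine le_trans (ENNReal.ofReal_le_ofReal ?_) (le_defect c (τ t y) Q hw1)
    have h3 := h1 t x hx y (ball_subset_ball hrδ.le hy)
    have h4 : |(τ t y - τ t x) w (Q w)| ≤ ‖τ t y - τ t x‖ * ‖w‖ * ‖Q w‖ := by
      have := (τ t y - τ t x).le_opNorm₂ w (Q w)
      rwa [Real.norm_eq_abs] at this
    have h5 : ‖Q w‖ ≤ |C| + 1 := by
      have e1 := Q.le_opNorm w
      rw [hw1, mul_one] at e1
      have e2 := le_abs_self C
      linarith
    have h6 : ‖τ t y - τ t x‖ * ‖w‖ * ‖Q w‖ ≤ c / (4 * (|C| + 1)) * (|C| + 1) := by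
      rw [hw1, mul_one]
      exact mul_le_mul h3 h5 (norm_nonneg _) (by positivity)
    have h7 : c / (4 * (|C| + 1)) * (|C| + 1) = c / 4 := by
      have : |C| + 1 ≠ 0 := by positivity
      field_simp
    have h8 : (τ t y - τ t x) w (Q w) = τ t y w (Q w) - τ t x w (Q w) := rfl
    rw [h8] at h4
    have h9 := (abs_le.1 (h4.trans (h6.trans h7.le))).2
    linarith
  have h3 : ENNReal.ofReal (c / 2) * volume (ball x r) ≤
      ENNReal.ofReal (c / 8 * vb E * r ^ Module.finrank ℝ E) := by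
    rw [← setLIntegral_const]
    exact (setLIntegral_mono' measurableSet_ball h2).trans hint
  exact vol_contra x hr (by positivity) (by positivity)
    (by nlinarith [mul_pos hc hv]) h3

end

end Pool.Agent.Y722.SY
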